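import Pool.Agent.Helper54.TG.L2
import Pool.Agent.Helper32.TG.L1

/-!
# The classes of a point
-/

set_option autoImplicit false

namespace Pool.Agent.Helper54.PT

open Finset Module Pool.Agent.Helper43.TW Pool.Agent.Helper47.BSD

universe u

section

variable {k : Type u} [Field k] {ℓ : ℕ}

theorem cl_zpow' {x : k} (hx : x ≠ 0) (m : ℤ) : cl ℓ (x ^ m) = (m : ZMod ℓ) • cl ℓ x := by
  cases m with
  | ofNat m =>
    rw [Int.ofNat_eq_natCast, zpow_natCast, cl_pow hx, Int.cast_natCast]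
  | negSucc m =>
    rw [zpow_negSucc, cl_inv (pow_ne_zero _ hx), cl_pow hx, Int.cast_negSucc, neg_smul]

end

section

variable {k : Type u} [NormedField k] {ι : Type} [Fintype ι]

theorem split_disc {M : Type*} [AddCommMonoid M] (E : ι → k) (i₁ : ι) (ρ : ℝ) (f : ι → M) :
    ∑ i, f i = ∑ i ∈ univ.filter (fun i => ρ < ‖E i - E i₁‖), f i +
      ∑ i ∈ univ.filter (fun i => ‖E i - E i₁‖ ≤ ρ), f i := by
  rw [← sum_filter_add_sum_filter_not univ (fun i => ρ < ‖E i - E i₁‖) f]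
  congr 2
  exact filter_congr fun i _ => not_lt

theorem split_disc_prod {M : Type*} [CommMonoid M] (E : ι → k) (i₁ : ι) (ρ : ℝ) (f : ι → M) :
    ∏ i, f i = (∏ i ∈ univ.filter (fun i => ρ < ‖E i - E i₁‖), f i) *
      ∏ i ∈ univ.filter (fun i => ‖E i - E i₁‖ ≤ ρ), f i := by
  rw [← prod_filter_mul_prod_filter_not univ (fun i => ρ < ‖E i - E i₁‖) f]
  congr 2
  exact filter_congr fun i _ => not_lt

end

variable {k : Type u} [NontriviallyNormedField k] [IsUltrametricDist k] [CompleteSpace k]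
  {ℓ : ℕ} {π : k} {ι : Type} [Fintype ι] [DecidableEq ι] {a : ι → ℕ} {E : ι → k}

/-- L3 with L1 as a hypothesis -/
theorem ptData_of_point_aux (hℓ : ℓ.Prime) (hk : LF ℓ π)
    (ha : ∀ i, ¬ ℓ ∣ a i) (hs : ¬ ℓ ∣ ∑ i, a i) {d : ι → kˣ}
    (hd : IsPointValue ℓ a E d)
    (L1 : ∀ {L : Type u} [Field L] [Algebra k L] [FiniteDimensional k L] {A : k} (_ : A ≠ 0)
      {θ : L} (_ : θ ^ ℓ = algebraMap k L A) {z : L} (_ : z ≠ 0),
      tm hk (cl ℓ A) (cl ℓ (Algebra.norm k z)) = 0) :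
    PtData hk a E (fun i => cl ℓ (d i : k)) := by
  have : Fact ℓ.Prime := ⟨hℓ⟩
  obtain ⟨L, _, _, _, x, y, hy, hxy, hd⟩ := hd
  set X : ι → L := fun j => x - algebraMap k L (E j) with hXdef
  have hX0 : ∀ j, X j ≠ 0 := fun j h => by
    have h4 : y ^ ℓ = 0 := by
      rw [hxy]
      exact prod_eq_zero (mem_univ j) (by
        rw [show x - algebraMap k L (E j) = 0 from h, zero_pow (fun h => ha j (by rw [h]; exact dvd_zero _))])
    exact hy (pow_eq_zero_iff hℓ.ne_zero |>.1 h4)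
  have hXX : ∀ i j, X j = X i + algebraMap k L (E i - E j) := fun i j => by
    simp only [hXdef, map_sub]
    ring
  have hDN : ∀ j, cl ℓ (d j : k) = nmC k L ℓ (cl ℓ (X j)) := fun j => by
    rw [nmC_cl k L (hX0 j), hd j]
  have hdn : ∀ j, ‖(d j : k)‖ = specAbs k L (X j) ^ finrank k L := fun j => by
    rw [hd j, norm_norm_eq]
  have hrel : ∑ j, (a j : ZMod ℓ) • cl ℓ (X j) = 0 := by
    rw [← cl_pow_ell hy, hxy, cl_prod _ _ fun j _ => pow_ne_zero _ (hX0 j)]
    exact sum_congr rfl fun j _ => (cl_pow (hX0 j) _).symm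
  have hR : ∑ j, (a j : ZMod ℓ) • cl ℓ (d j : k) = 0 := by
    have h4 : nmC k L ℓ (∑ j, (a j : ZMod ℓ) • cl ℓ (X j)) = 0 := by rw [hrel, map_zero]
    rw [map_sum] at h4
    rw [← h4]
    exact sum_congr rfl fun j _ => by rw [nmC_smul, hDN j]
  have hmapne : ∀ u : k, u ≠ 0 → algebraMap k L u ≠ 0 := fun u hu => (map_ne_zero _).2 hu
  have hnear := fun (X Y : L) (hY : Y ≠ 0) (h : specAbs k L (X - Y) < specAbs k L Y) =>
    pn_near (k := k) hℓ.pos hk.norm_ell hY h
  have hne : (univ : Finset ι).Nonempty := by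
    rw [univ_nonempty_iff]
    by_contra h
    rw [not_nonempty_iff] at h
    exact hs (by simp)
  obtain ⟨i₁, -, hmin⟩ := exists_min_image univ (fun i => specAbs k L (X i)) hne
  set ρ := specAbs k L (X i₁) with hρdef
  have hρ : 0 < ρ := (specAbs k L).pos (hX0 i₁)
  -- outside the disc
  have hout : ∀ i, ρ < ‖E i - E i₁‖ → E i₁ - E i ≠ 0 ∧ specAbs k L (X i) = ‖E i₁ - E i‖ ∧
      cl ℓ (X i) = cl ℓ (algebraMap k L (E i₁ - E i)) := by
    intro i hi
    have h1 : E i₁ - E i ≠ 0 := by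
      intro h
      rw [← norm_neg, neg_sub, h, norm_zero] at hi
      exact absurd hi (not_lt.2 hρ.le)
    have h2 := hnear (X i) (algebraMap k L (E i₁ - E i)) (hmapne _ h1) (by
      rw [hXX i₁ i, add_sub_cancel_right, specAbs_algebraMap, norm_sub_rev]
      exact hi)
    refine ⟨h1, ?_, h2.2.2⟩
    rw [h2.2.1, specAbs_algebraMap]
  -- inside the disc
  have hin : ∀ i, ‖E i - E i₁‖ ≤ ρ → specAbs k L (X i) = ρ := by
    intro i hi
    refine le_antisymm ?_ (hmin i (mem_univ i))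
    rw [hXX i₁ i]
    refine (specAbs_add_le (k := k) _ _).trans (max_le le_rfl ?_)
    rw [specAbs_algebraMap, norm_sub_rev]
    exact hi
  have hsame : ∀ i j, ‖E i - E i₁‖ ≤ ρ → ‖E j - E i₁‖ ≤ ρ → ‖E i - E j‖ < ρ →
      cl ℓ (X i) = cl ℓ (X j) := by
    intro i j _ hj hij
    refine (hnear (X i) (X j) (hX0 j) ?_).2.2
    rw [hXX j i, add_sub_cancel_left, specAbs_algebraMap, hin j hj, norm_sub_rev]
    exact hij
  have hclout : ∀ i, ρ < ‖E i - E i₁‖ →
      cl ℓ (d i : k) = (finrank k L : ZMod ℓ) • cl ℓ (E i₁ - E i) := by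
    intro i hi
    rw [hDN i, (hout i hi).2.2, nmC_algebraMap k L (hout i hi).1]
  have hprodne : ∀ i ∈ univ.filter (fun i => ρ < ‖E i - E i₁‖), (E i₁ - E i) ^ a i ≠ 0 :=
    fun i hi => pow_ne_zero _ (hout i (mem_filter.1 hi).2).1
  have hclprod : cl ℓ (∏ i ∈ univ.filter (fun i => ρ < ‖E i - E i₁‖), (E i₁ - E i) ^ a i) =
      outC ℓ a E i₁ ρ := by
    rw [cl_prod _ _ hprodne]
    exact sum_congr rfl fun i hi => cl_pow (hout i (mem_filter.1 hi).2).1 _
  have hprod0 : ∏ i ∈ univ.filter (fun i => ρ < ‖E i - E i₁‖), (E i₁ - E i) ^ a i ≠ 0 :=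
    prod_ne_zero_iff.2 hprodne
  refine ⟨i₁, ρ, (finrank k L : ZMod ℓ), hρ, hclout, hR, ?_⟩
  by_cases hm : ∃ m : ℤ, ρ = ‖π‖ ^ m
  · obtain ⟨m, hm⟩ := hm
    refine Or.inl ⟨m, hm, fun i hi => ?_, fun i j hi hj hij => ?_, fun i hi => ?_⟩
    · rw [nu_cl hk (d i).ne_zero (m := (finrank k L : ℤ) * m) (by
        rw [hdn i, hin i hi, hm, mul_comm, zpow_mul, zpow_natCast]), Int.cast_mul,
        Int.cast_natCast]
    · change cl ℓ (d i : k) = cl ℓ (d j : k)
      rw [hDN i, hDN j, hsame i j hi hj hij]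
    · by_cases hν : nu hk (outC ℓ a E i₁ ρ) + inA ℓ a E i₁ ρ * m = 0
      · rw [hν, zero_smul]
      set s : ℕ := ∑ i ∈ univ.filter (fun i => ‖E i - E i₁‖ ≤ ρ), a i with hsdef
      have hs' : ((s : ℕ) : ZMod ℓ) = inA ℓ a E i₁ ρ := by
        rw [hsdef, Nat.cast_sum]
        rfl
      set A : k := (∏ i ∈ univ.filter (fun i => ρ < ‖E i - E i₁‖), (E i₁ - E i) ^ a i) *
        (π ^ m) ^ s with hA
      have hπm : π ^ m ≠ 0 := zpow_ne_zero _ (pi_ne hk)
      have hA0 : A ≠ 0 := mul_ne_zero hprod0 (pow_ne_zero _ hπm)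
      have hnuπ : nu hk (cl ℓ π) = 1 := by
        rw [nu_cl hk (pi_ne hk) (m := 1) (by rw [zpow_one]), Int.cast_one]
      have hclA : nu hk (cl ℓ A) ≠ 0 := by
        rw [hA, cl_mul hprod0 (pow_ne_zero _ hπm), hclprod, cl_pow hπm, cl_zpow' (pi_ne hk),
          map_add, nu_smul, nu_smul, hnuπ, mul_one, hs']
        exact hν
      have hyA : specAbs k L y ^ ℓ = ‖A‖ := by
        rw [← map_pow, hxy, map_prod, split_disc_prod E i₁ ρ, hA, norm_mul, norm_prod, norm_pow,
          norm_zpow, ← hm]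
        congr 1
        · exact prod_congr rfl fun i hi => by
            rw [map_pow, norm_pow, ← (hout i (mem_filter.1 hi).2).2.1]
        · rw [hsdef, ← prod_pow_eq_pow_sum]
          exact prod_congr rfl fun i hi => by
            rw [map_pow]
            congr 1
            exact hin i (mem_filter.1 hi).2
      have hπL : algebraMap k L (π ^ m) ≠ 0 := hmapne _ hπm
      have hu0 : X i / algebraMap k L (π ^ m) ≠ 0 := div_ne_zero (hX0 i) hπL
      have hu := cl_norm_unit hℓ hk hA0 hclA hyA (u := X i / algebraMap k L (π ^ m)) (by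
        rw [map_div₀, hin i hi, specAbs_algebraMap, norm_zpow, ← hm, div_self hρ.ne'])
      have h5 : cl ℓ (d i : k) = (finrank k L * m : ZMod ℓ) • cl ℓ π := by
        have h6 : X i = algebraMap k L (π ^ m) * (X i / algebraMap k L (π ^ m)) := by field_simp
        rw [hDN i, h6, cl_mul hπL hu0, map_add, nmC_algebraMap k L hπm, nmC_cl k L hu0, hu,
          add_zero, cl_zpow' (pi_ne hk), smul_smul]
      change _ • (cl ℓ (d i : k) - _) = 0
      rw [h5, sub_self, smul_zero]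
  · have hlt : ∀ i j, ‖E i - E i₁‖ ≤ ρ → ‖E j - E i₁‖ ≤ ρ → ‖E i - E j‖ < ρ := by
      intro i j hi hj
      have h1 : ‖E i - E j‖ ≤ ρ := by
        rw [show E i - E j = (E i - E i₁) + (E i₁ - E j) by ring]
        refine (IsUltrametricDist.norm_add_le_max _ _).trans (max_le hi ?_)
        rw [norm_sub_rev]
        exact hj
      refine lt_of_le_of_ne h1 fun h2 => hm ?_
      obtain ⟨m, hm'⟩ := hk.disc (E i - E j) (by
        intro h0
        rw [h0, norm_zero] at h2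
        exact hρ.ne h2)
      exact ⟨m, by rw [← h2, hm']⟩
    have h11 : ‖E i₁ - E i₁‖ ≤ ρ := by
      rw [sub_self, norm_zero]
      exact hρ.le
    have hcst : ∀ i, ‖E i - E i₁‖ ≤ ρ → cl ℓ (X i) = cl ℓ (X i₁) := fun i hi =>
      hsame i i₁ hi h11 (hlt i i₁ hi h11)
    refine Or.inr ⟨fun i hi => ?_, hlt, ?_⟩
    · change cl ℓ (d i : k) = cl ℓ (d i₁ : k)
      rw [hDN i, hDN i₁, hcst i hi]
    · by_cases h0 : inA ℓ a E i₁ ρ = 0
      · have h1 : cl ℓ (algebraMap k L (∏ i ∈ univ.filter (fun i => ρ < ‖E i - E i₁‖),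
            (E i₁ - E i) ^ a i)) = 0 := by
          rw [map_prod, cl_prod _ _ fun i hi => hmapne _ (hprodne i hi)]
          have h2 := hrel
          rw [split_disc E i₁ ρ] at h2
          have h3 : ∑ i ∈ univ.filter (fun i => ‖E i - E i₁‖ ≤ ρ), (a i : ZMod ℓ) • cl ℓ (X i) =
              0 := by
            rw [sum_congr rfl fun i hi => by rw [hcst i (mem_filter.1 hi).2], ← sum_smul]
            change inA ℓ a E i₁ ρ • cl ℓ (X i₁) = 0
            rw [h0, zero_smul]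
          rw [h3, add_zero] at h2
          rw [← h2]
          exact sum_congr rfl fun i hi => by
            rw [map_pow, cl_pow (hmapne _ (hout i (mem_filter.1 hi).2).1),
              (hout i (mem_filter.1 hi).2).2.2]
        obtain ⟨θ, hθ⟩ := (cl_eq_zero (hmapne _ hprod0)).1 h1
        have h2 := L1 hprod0 hθ.symm (hX0 i₁)
        rw [hclprod] at h2
        change tm hk _ (cl ℓ (d i₁ : k)) = 0
        rw [hd i₁]
        exact h2
      · have h1 := hR
        rw [split_disc E i₁ ρ] at h1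
        have h2 : ∑ i ∈ univ.filter (fun i => ‖E i - E i₁‖ ≤ ρ), (a i : ZMod ℓ) •
            cl ℓ (d i : k) = inA ℓ a E i₁ ρ • cl ℓ (d i₁ : k) := by
          rw [sum_congr rfl fun i hi => by rw [hDN i, hcst i (mem_filter.1 hi).2, ← hDN i₁],
            ← sum_smul]
          rfl
        have h3 : ∑ i ∈ univ.filter (fun i => ρ < ‖E i - E i₁‖), (a i : ZMod ℓ) •
            cl ℓ (d i : k) = (finrank k L : ZMod ℓ) • outC ℓ a E i₁ ρ := by
          rw [outC, smul_sum]
          exact sum_congr rfl fun i hi => by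
            rw [hclout i (mem_filter.1 hi).2, smul_comm]
        rw [h2, h3] at h1
        have h4 : inA ℓ a E i₁ ρ • tm hk (outC ℓ a E i₁ ρ) (cl ℓ (d i₁ : k)) = 0 := by
          rw [← tm_smul_right, eq_neg_of_add_eq_zero_right h1, tm_neg_right, tm_smul_right,
            tm_self, smul_zero, neg_zero]
        exact (smul_eq_zero.1 h4).resolve_left h0

/-- L3: point values (uses L1, L2) -/
theorem ptData_of_point (hℓ : ℓ.Prime) (hk : LF ℓ π) (hc : cl ℓ (-1 : k) = 0)
    (ha : ∀ i, ¬ ℓ ∣ a i) (hs : ¬ ℓ ∣ ∑ i, a i) (_hE : ∀ i j, i ≠ j → E i ≠ E j) {d : ι → kˣ}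
    (hd : IsPointValue ℓ a E d) : PtData hk a E (fun i => cl ℓ (d i : k)) :=
  ptData_of_point_aux hℓ hk ha hs hd fun hA _ hθ _ hz => tm_norm hℓ hk hc hA hθ hz

end Pool.Agent.Helper54.PT
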