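import Pool.Agent.Helper54.TG.Wire
import Pool.Agent.Helper12.TG.G45
import Pool.Agent.Helper12.TG.K1
import Pool.Agent.Helper42.TG.G01
import Pool.Agent.Helper42.TG.K24
import Pool.Agent.Helper48.TG.K3
import Pool.Agent.Helper73.TG.K0

/-!
# Twists of superelliptic curves with arbitrary bad reduction: the local conditions
-/

set_option autoImplicit false

namespace Pool.Agent.Helper54.PT

open Polynomial Finset Filter Topology Module Pool.Agent.Helper43.TW Pool.Agent.Helper47.BSD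

section Global

variable {F : Type} [Field F] [Finite F] {ℓ : ℕ} [Fact ℓ.Prime] {ι : Type} [Fintype ι]
  [DecidableEq ι] {σ : Type} [Fintype σ] [DecidableEq σ] {a : ι → ℕ} {e : ι → F[X]}
  {R : σ → Prm F} {lg : F → ZMod ℓ}

/-- K3: the local model of a place -/
theorem local_model' (hq : ℓ ∣ Nat.card F - 1) (hlg : IsLog ℓ lg) (hm : lg (-1) = 0) {σ : Type}
    (R : σ → Prm F) {ι : Type} [Fintype ι] [DecidableEq ι] (a : ι → ℕ) (t : Option σ) :
    ∃ (k : Type) (_ : NontriviallyNormedField k) (_ : IsUltrametricDist k) (_ : CompleteSpace k)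
      (π : k) (hk : LF ℓ π) (φ : RatFunc F →+* k) (f : Cl ℓ k →+ ZMod ℓ × ZMod ℓ),
      FC hk f ∧ cl ℓ (-1 : k) = 0 ∧ (∀ x, x ≠ 0 → f (cl ℓ (φ x)) = clsT R lg x t) ∧
      (∀ E : ι → RatFunc F, ∀ d ∈ selmerSet ℓ a E,
        mapUnits φ d ∈ descentGroup ℓ a fun i => φ (E i)) ∧
      ∀ r, t = some r → (∀ x, (f x).1 = nu hk x) ∧
        ∀ x, x ≠ 0 → ‖φ x‖ = ‖π‖ ^ ordK (R r) x :=
  local_model_aux (fun v _ _ hk cls hmul h0 => exists_fc v hk cls hmul h0)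
    (fun hq hlg P v hvn hv _ hx h1 h2 => pow_of_class_absP hq hlg P v hvn hv hx h1 h2)
    (fun hq hlg v hvn hv _ hx h1 h2 => pow_of_class_absInf hq hlg v hvn hv hx h1 h2)
    hq hlg hm R a t

/-- G4: torsion in the local conditions -/
theorem torG' (hlg : IsLog ℓ lg) (hm : lg (-1) = 0) (ha : ∀ i, ¬ ℓ ∣ a i)
    (hs : ¬ ℓ ∣ ∑ i, a i) (hS : SetupG R e) (i₀ : ι) (t : Option σ) (c : ZMod ℓ) (D : RatFunc F)
    (hD : D ≠ 0) (hDc : clsT R lg D t = (0, c)) (M : Submodule (ZMod ℓ) (LSG ℓ i₀))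
    (h : ∀ i, mkG i₀ (fun j => clsT R lg (tt ℓ a
      (fun i => D * algebraMap F[X] (RatFunc F) (e i)) i j) t) ∈ M)
    (v : {j : ι // j ≠ i₀} → ZMod ℓ) :
    ((fun j => tauG a i₀ (AG R lg e) v j t,
      fun j => zlG (fun r => ((R r).1.natDegree : ZMod ℓ)) (fun r r' => sy lg (R r).1 (R r').1)
        (fun s => tauG a i₀ (AG R lg e) v j s) 0 t + c * v j) : LSG ℓ i₀) ∈ M :=
  G45.torG_of (G45.rec_of fun D hD _ hx0 hx t => clsT_eq hlg hS.inj D hD hx0 hx t) hlg hm ha hs hS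
    i₀ t c D hD hDc M h v

/-- G5: the coefficients of the quadratic form -/
theorem gG_eq' {lg : F → ZMod 2} (hlg : IsLog 2 lg) (hS : SetupG R e) (t : Option σ) (i : ι) :
    gG (fun r => ((R r).1.natDegree : ZMod 2)) (fun r r' => sy lg (R r).1 (R r').1)
      (AG R lg e) t i = ∑ m ∈ univ.erase i,
        clsT R lg (algebraMap F[X] (RatFunc F) (e i) - algebraMap F[X] (RatFunc F) (e m)) t :=
  G45.gG_eq_of (G45.rec_of fun D hD _ hx0 hx t => clsT_eq hlg hS.inj D hD hx0 hx t) hS t i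

/-- The local condition at a place. -/
theorem exists_MG_t (hq : ℓ ∣ Nat.card F - 1) (hlg : IsLog ℓ lg) (hm : lg (-1) = 0)
    (ha : ∀ i, ¬ ℓ ∣ a i) (hs : ¬ ℓ ∣ ∑ i, a i) (hS : SetupG R e) (i₀ : ι) (t : Option σ)
    (c : ZMod ℓ) : ∃ M : Submodule (ZMod ℓ) (LSG ℓ i₀),
      finrank (ZMod ℓ) M = Fintype.card {j : ι // j ≠ i₀} ∧
      (∀ w ∈ M, ∀ w' ∈ M, bG a i₀ w w' = 0) ∧
      (∀ v : {j : ι // j ≠ i₀} → ZMod ℓ, ((fun j => tauG a i₀ (AG R lg e) v j t,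
        fun j => zlG (fun r => ((R r).1.natDegree : ZMod ℓ)) (fun r r' => sy lg (R r).1 (R r').1)
          (fun s => tauG a i₀ (AG R lg e) v j s) 0 t + c * v j) : LSG ℓ i₀) ∈ M) ∧
      ∀ D : RatFunc F, D ≠ 0 → clsT R lg D t = (0, c) →
        ∀ d ∈ selmerSet ℓ a (fun i => D * algebraMap F[X] (RatFunc F) (e i)),
          mkG i₀ (fun i => clsT R lg (d i : RatFunc F) t) ∈ M := by
  obtain ⟨k, _, _, _, π, hk, φ, f, hf, hc, hφ, hsel, -⟩ := local_model' hq hlg hm R a t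
  have he : ∀ i j, i ≠ j → algebraMap F[X] (RatFunc F) (e i) ≠ algebraMap F[X] (RatFunc F) (e j) :=
    fun i j hij h => hS.ne i j hij (RatFunc.algebraMap_injective F h)
  have hE : ∀ D : RatFunc F, D ≠ 0 → ∀ i j, i ≠ j → D * algebraMap F[X] (RatFunc F) (e i) -
      D * algebraMap F[X] (RatFunc F) (e j) ≠ 0 := fun D hD i j hij => by
    rw [← mul_sub]
    exact mul_ne_zero hD (sub_ne_zero.2 (he i j hij))
  obtain ⟨M, hM1, hM2, hM3⟩ := exists_lagG ha hs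
    (LocS hk φ f a (fun i => algebraMap F[X] (RatFunc F) (e i)) i₀ c)
    (locS_iso' hk hc ha hf he i₀ c)
  refine ⟨M, hM1, hM2, fun v => ?_, fun D hD hDc d hd => ?_⟩
  · obtain ⟨D, hD, hDc⟩ := exists_class hlg R t c
    refine torG' hlg hm ha hs hS i₀ t c D hD hDc M (fun i => ?_) v
    have h1 := mem_of_tor hk ha he i₀ c M hM3 hD (by rw [hφ D hD, hDc]) i
    have h2 : (fun j => clsT R lg (tt ℓ a
        (fun i => D * algebraMap F[X] (RatFunc F) (e i)) i j) t) =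
        fun j => f (cl ℓ (φ (tt ℓ a (fun i => D * algebraMap F[X] (RatFunc F) (e i)) i j))) :=
      funext fun j => (hφ _ (Helper33.TW.tt_ne_zero (hE D hD) i j)).symm
    rw [h2]
    exact h1
  · have h1 := mem_of_descent hk hc ha hs hf he i₀ c M hM3 hD (by rw [hφ D hD, hDc])
      (hsel _ d hd)
    have h2 : (fun i => clsT R lg (d i : RatFunc F) t) =
        fun i => f (cl ℓ ((mapUnits φ d i : kˣ) : k)) :=
      funext fun i => (hφ _ (d i).ne_zero).symm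
    rw [h2]
    exact h1

/-- G6: the local conditions (uses E1, S1, S3, S4, K3, K4, G4) -/
theorem exists_MG' (hq : ℓ ∣ Nat.card F - 1) (hlg : IsLog ℓ lg) (hm : lg (-1) = 0)
    (hrec : ∀ P Q : Prm F, P ≠ Q → sy lg Q.1 P.1 = sy lg P.1 Q.1)
    (ha : ∀ i, ¬ ℓ ∣ a i) (hs : ¬ ℓ ∣ ∑ i, a i) (hS : SetupG R e) (i₀ : ι) :
    ∃ M : Option σ → ZMod ℓ → Submodule (ZMod ℓ) (LSG ℓ i₀),
      LDG a i₀ (fun r => ((R r).1.natDegree : ZMod ℓ)) (fun r r' => sy lg (R r).1 (R r').1)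
        (AG R lg e) M ∧ SelM R lg a e i₀ M := by
  choose M hM1 hM2 hM3 hM4 using exists_MG_t hq hlg hm ha hs hS i₀
  exact ⟨M, ⟨fun r r' hr => hrec (R r') (R r) fun h => hr (hS.inj h).symm, hM1, hM2, hM3⟩,
    fun t c D hD hDc d hd => hM4 t c D hD hDc d hd⟩

end Global

section GlobalTwo

variable {F : Type} [Field F] [Finite F] {ι : Type} [Fintype ι]
  [DecidableEq ι] {σ : Type} [Fintype σ] [DecidableEq σ] {a : ι → ℕ} {e : ι → F[X]}
  {R : σ → Prm F} {lg : F → ZMod 2}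

/-- The properties of the local condition at a place. -/
def GoodM (R : σ → Prm F) (lg : F → ZMod 2) (a : ι → ℕ) (e : ι → F[X]) (i₀ : ι) (t : Option σ)
    (c : ZMod 2) (M : Submodule (ZMod 2) (LSG 2 i₀)) : Prop :=
  finrank (ZMod 2) M = Fintype.card {j : ι // j ≠ i₀} ∧
    (∀ w ∈ M, ∀ w' ∈ M, bG a i₀ w w' = 0) ∧
    (∀ v : {j : ι // j ≠ i₀} → ZMod 2, ((fun j => tauG a i₀ (AG R lg e) v j t,
      fun j => zlG (fun r => ((R r).1.natDegree : ZMod 2)) (fun r r' => sy lg (R r).1 (R r').1)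
        (fun s => tauG a i₀ (AG R lg e) v j s) 0 t + c * v j) : LSG 2 i₀) ∈ M) ∧
    (∀ D : RatFunc F, D ≠ 0 → clsT R lg D t = (0, c) →
      ∀ d ∈ selmerSet 2 a (fun i => D * algebraMap F[X] (RatFunc F) (e i)),
        mkG i₀ (fun i => clsT R lg (d i : RatFunc F) t) ∈ M) ∧
    ∀ w ∈ M, qG a i₀ (gG (fun r => ((R r).1.natDegree : ZMod 2))
      (fun r r' => sy lg (R r).1 (R r').1) (AG R lg e) t) w = 0

/-- The local condition from a subspace containing the local set. -/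
theorem goodM_of (hlg : IsLog 2 lg) (hm : lg (-1) = 0)
    (ha : ∀ i, ¬ 2 ∣ a i) (hs : ¬ 2 ∣ ∑ i, a i) (hS : SetupG R e) (i₀ : ι) (t : Option σ)
    {k : Type} [NontriviallyNormedField k] [IsUltrametricDist k] [CompleteSpace k]
    {π : k} (hk : LF 2 π) {φ : RatFunc F →+* k} {f : Cl 2 k →+ ZMod 2 × ZMod 2}
    (hf : FC hk f) (hc : cl 2 (-1 : k) = 0) (hφ : ∀ x, x ≠ 0 → f (cl 2 (φ x)) = clsT R lg x t)
    (hsel : ∀ E : ι → RatFunc F, ∀ d ∈ selmerSet 2 a E,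
        mapUnits φ d ∈ descentGroup 2 a fun i => φ (E i)) (c : ZMod 2)
    (M : Submodule (ZMod 2) (LSG 2 i₀)) (hM1 : finrank (ZMod 2) M = Fintype.card {j : ι // j ≠ i₀})
    (hM2 : ∀ w ∈ M, ∀ w' ∈ M, bG a i₀ w w' = 0)
    (hM4 : ∀ w ∈ M, qG a i₀ (fun i => ∑ m ∈ univ.erase i, f (cl 2 (φ
      (algebraMap F[X] (RatFunc F) (e i) - algebraMap F[X] (RatFunc F) (e m))))) w = 0)
    (hM3 : LocS hk φ f a (fun i => algebraMap F[X] (RatFunc F) (e i)) i₀ c ⊆ M) :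
    GoodM R lg a e i₀ t c M := by
  have he : ∀ i j, i ≠ j → algebraMap F[X] (RatFunc F) (e i) ≠ algebraMap F[X] (RatFunc F) (e j) :=
    fun i j hij h => hS.ne i j hij (RatFunc.algebraMap_injective F h)
  have hE : ∀ D : RatFunc F, D ≠ 0 → ∀ i j, i ≠ j → D * algebraMap F[X] (RatFunc F) (e i) -
      D * algebraMap F[X] (RatFunc F) (e j) ≠ 0 := fun D hD i j hij => by
    rw [← mul_sub]
    exact mul_ne_zero hD (sub_ne_zero.2 (he i j hij))
  refine ⟨hM1, hM2, fun v => ?_, fun D hD hDc d hd => ?_, fun w hw => ?_⟩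
  · obtain ⟨D, hD, hDc⟩ := exists_class hlg R t c
    refine torG' hlg hm ha hs hS i₀ t c D hD hDc M (fun i => ?_) v
    have h1 := mem_of_tor hk ha he i₀ c M hM3 hD (by rw [hφ D hD, hDc]) i
    have h2 : (fun j => clsT R lg (tt 2 a
        (fun i => D * algebraMap F[X] (RatFunc F) (e i)) i j) t) =
        fun j => f (cl 2 (φ (tt 2 a (fun i => D * algebraMap F[X] (RatFunc F) (e i)) i j))) :=
      funext fun j => (hφ _ (Helper33.TW.tt_ne_zero (hE D hD) i j)).symm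
    rw [h2]
    exact h1
  · have h1 := mem_of_descent hk hc ha hs hf he i₀ c M hM3 hD (by rw [hφ D hD, hDc])
      (hsel _ d hd)
    have h2 : (fun i => clsT R lg (d i : RatFunc F) t) =
        fun i => f (cl 2 ((mapUnits φ d i : kˣ) : k)) :=
      funext fun i => (hφ _ (d i).ne_zero).symm
    rw [h2]
    exact h1
  · have h1 : gG (fun r => ((R r).1.natDegree : ZMod 2)) (fun r r' => sy lg (R r).1 (R r').1)
        (AG R lg e) t = fun i => ∑ m ∈ univ.erase i, f (cl 2 (φ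
          (algebraMap F[X] (RatFunc F) (e i) - algebraMap F[X] (RatFunc F) (e m)))) := by
      funext i
      rw [gG_eq' hlg hS t i]
      refine sum_congr rfl fun m hm => (hφ _ ?_).symm
      exact sub_ne_zero.2 (he i m (ne_of_mem_erase hm).symm)
    rw [h1]
    exact hM4 w hw

theorem exists_goodM (hq : 2 ∣ Nat.card F - 1) (hlg : IsLog 2 lg) (hm : lg (-1) = 0)
    (ha : ∀ i, ¬ 2 ∣ a i) (hs : ¬ 2 ∣ ∑ i, a i) (hS : SetupG R e) (i₀ : ι) (t : Option σ)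
    (c : ZMod 2) : ∃ M, GoodM R lg a e i₀ t c M := by
  obtain ⟨k, _, _, _, π, hk, φ, f, hf, hc, hφ, hsel, -⟩ := local_model' hq hlg hm R a t
  have he : ∀ i j, i ≠ j → algebraMap F[X] (RatFunc F) (e i) ≠ algebraMap F[X] (RatFunc F) (e j) :=
    fun i j hij h => hS.ne i j hij (RatFunc.algebraMap_injective F h)
  obtain ⟨hg1, hg2⟩ := g_inv hk hc hf (φ := φ) he
  obtain ⟨N, hN, hNq⟩ := exists_N0 (i₀ := i₀) ha hs _ hg1 hg2
  obtain ⟨M, hM1, hM2, hM4, hM3⟩ := exists_lagQ ha hs _ N hN hNq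
    (LocS hk φ f a (fun i => algebraMap F[X] (RatFunc F) (e i)) i₀ c)
    (locS_iso' hk hc ha hf he i₀ c) (locS_quad hk hc ha hs hf he i₀ c)
  exact ⟨M, goodM_of hlg hm ha hs hS i₀ t hk hf hc hφ hsel c M hM1 hM2 hM4 hM3⟩

theorem exists_goodM_node (hq : 2 ∣ Nat.card F - 1) (hlg : IsLog 2 lg) (hm : lg (-1) = 0)
    (ha : ∀ i, ¬ 2 ∣ a i) (hs : ¬ 2 ∣ ∑ i, a i) (hS : SetupG R e) (i₀ : ι) (r₀ : σ) {i₁ i₂ : ι}
    (hne : i₁ ≠ i₂) (h1 : (R r₀).1 ∣ e i₁ - e i₂)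
    (h2 : ∀ i j, i ≠ j → s(i, j) ≠ s(i₁, i₂) → ¬ (R r₀).1 ∣ e i - e j) :
    ∃ M : ZMod 2 → Submodule (ZMod 2) (LSG 2 i₀), (∀ c, GoodM R lg a e i₀ (some r₀) c (M c)) ∧
      finrank (ZMod 2) (M 0 ⊓ M 1 : Submodule (ZMod 2) (LSG 2 i₀)) + 1 =
        Fintype.card {j : ι // j ≠ i₀} := by
  obtain ⟨k, _, _, _, π, hk, φ, f, hf, hc, hφ, hsel, hlast⟩ :=
    local_model' hq hlg hm R a (some r₀)
  obtain ⟨hfo, hφn⟩ := hlast r₀ rfl
  have he : ∀ i j, i ≠ j → algebraMap F[X] (RatFunc F) (e i) ≠ algebraMap F[X] (RatFunc F) (e j) :=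
    fun i j hij h => hS.ne i j hij (RatFunc.algebraMap_injective F h)
  have hord : ∀ i j, i ≠ j → ‖φ (algebraMap F[X] (RatFunc F) (e i) -
      algebraMap F[X] (RatFunc F) (e j))‖ = ‖π‖ ^ (multiplicity (R r₀).1 (e i - e j)) := by
    intro i j hij
    rw [hφn _ (sub_ne_zero.2 (he i j hij)), ← map_sub, ordK_poly _ (sub_ne_zero.2 (hS.ne i j hij)),
      zpow_natCast]
  obtain ⟨M, hM, hMr⟩ := exists_M_node' (a := a) hk ha hs hc hf (φ := φ) hfo he i₀ hne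
    (fun i j hij hs' => by
      rw [hord i j hij, multiplicity_eq_zero.2 (h2 i j hij hs'), pow_zero])
    (by
      rw [hord _ _ hne]
      refine pow_lt_one₀ (norm_nonneg _) hk.lt_one ?_
      have hfin : FiniteMultiplicity (R r₀).1 (e i₁ - e i₂) :=
        FiniteMultiplicity.of_prime_left (R r₀).2.2.prime (sub_ne_zero.2 (hS.ne i₁ i₂ hne))
      rw [Ne, multiplicity_eq_zero, not_not]
      exact h1)
    (fun c => by
      obtain ⟨D, hD, hDc⟩ := exists_class hlg R (some r₀) c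
      exact ⟨D, hD, by rw [hφ D hD, hDc]⟩)
  exact ⟨M, fun c => goodM_of hlg hm ha hs hS i₀ (some r₀) hk hf hc hφ hsel c (M c) (hM c).1
    (hM c).2.1 (hM c).2.2.1 (hM c).2.2.2, hMr⟩

/-- G7: the local conditions for `ℓ = 2` (uses E2, E3, S1-S5, N3, K3, K4, G4, G5) -/
theorem exists_MG2' (hq : 2 ∣ Nat.card F - 1) (hlg : IsLog 2 lg)
    (hm : lg (-1) = 0) (hrec : ∀ P Q : Prm F, P ≠ Q → sy lg Q.1 P.1 = sy lg P.1 Q.1)
    (ha : ∀ i, ¬ 2 ∣ a i) (hs : ¬ 2 ∣ ∑ i, a i) (hS : SetupG R e) (i₀ : ι) (r₀ : σ) {i₁ i₂ : ι}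
    (hne : i₁ ≠ i₂) (h1 : (R r₀).1 ∣ e i₁ - e i₂)
    (h2 : ∀ i j, i ≠ j → s(i, j) ≠ s(i₁, i₂) → ¬ (R r₀).1 ∣ e i - e j) :
    ∃ M : Option σ → ZMod 2 → Submodule (ZMod 2) (LSG 2 i₀),
      LDG a i₀ (fun r => ((R r).1.natDegree : ZMod 2)) (fun r r' => sy lg (R r).1 (R r').1)
        (AG R lg e) M ∧ SelM R lg a e i₀ M ∧
      (∀ t c, ∀ w ∈ M t c, qG a i₀ (gG (fun r => ((R r).1.natDegree : ZMod 2))
        (fun r r' => sy lg (R r).1 (R r').1) (AG R lg e) t) w = 0) ∧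
      finrank (ZMod 2) (M (some r₀) 0 ⊓ M (some r₀) 1 : Submodule (ZMod 2) (LSG 2 i₀)) + 1 =
        Fintype.card {j : ι // j ≠ i₀} := by
  choose M₁ hM₁ using exists_goodM hq hlg hm ha hs hS i₀
  obtain ⟨M₀, hM₀, hr⟩ := exists_goodM_node hq hlg hm ha hs hS i₀ r₀ hne h1 h2
  let M : Option σ → ZMod 2 → Submodule (ZMod 2) (LSG 2 i₀) := fun t c =>
    if t = some r₀ then M₀ c else M₁ t c
  have hM : ∀ t c, GoodM R lg a e i₀ t c (M t c) := by
    intro t c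
    by_cases ht : t = some r₀
    · subst ht
      have h3 : M (some r₀) c = M₀ c := if_pos rfl
      rw [h3]
      exact hM₀ c
    · have h3 : M t c = M₁ t c := if_neg ht
      rw [h3]
      exact hM₁ t c
  refine ⟨M, ⟨fun r r' hr => hrec (R r') (R r) fun h => hr (hS.inj h).symm,
    fun t c => (hM t c).1, fun t c => (hM t c).2.1, fun t c => (hM t c).2.2.1⟩,
    fun t c D hD hDc d hd => (hM t c).2.2.2.1 D hD hDc d hd, fun t c => (hM t c).2.2.2.2, ?_⟩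
  have h3 : ∀ c, M (some r₀) c = M₀ c := fun c => if_pos rfl
  rw [h3, h3]
  exact hr

end GlobalTwo

end Pool.Agent.Helper54.PT
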