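import Pool.Agent.Helper54.PT.LocG

/-!
# Norms of units
-/

set_option autoImplicit false

namespace Pool.Agent.Helper54.PT

open Finset Module Pool.Agent.Helper43.TW Pool.Agent.Helper47.BSD

universe u

variable {k : Type u} [NontriviallyNormedField k] [IsUltrametricDist k] [CompleteSpace k]
  {ℓ : ℕ} {π : k}

/-- L2: norms of units -/
theorem cl_norm_unit (hℓ : ℓ.Prime) (hk : LF ℓ π) {L : Type u} [Field L]
    [Algebra k L] [FiniteDimensional k L] {A : k} (hA : A ≠ 0) (hν : nu hk (cl ℓ A) ≠ 0) {θ : L}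
    (hθ : specAbs k L θ ^ ℓ = ‖A‖) {u : L} (hu : specAbs k L u = 1) :
    cl ℓ (Algebra.norm k u) = 0 := by
  obtain ⟨m, hm⟩ := hk.disc A hA
  rw [nu_cl hk hA hm, Ne, ZMod.intCast_zmod_eq_zero_iff_dvd] at hν
  have hcop : IsCoprime (ℓ : ℤ) m := by
    rw [Int.isCoprime_iff_gcd_eq_one, Int.gcd_eq_natAbs, Int.natAbs_natCast]
    exact (Nat.Prime.coprime_iff_not_dvd hℓ).2 fun h => hν (Int.natCast_dvd.2 h)
  obtain ⟨y, x, hxy⟩ := hcop
  have hθ0 : θ ≠ 0 := by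
    rintro rfl
    rw [map_zero, zero_pow hℓ.ne_zero] at hθ
    exact (norm_pos_iff.2 hA).ne hθ
  have hz : specAbs k L (θ ^ x * algebraMap k L (π ^ y)) ^ ℓ = ‖π‖ := by
    rw [map_mul, map_zpow₀, specAbs_algebraMap, mul_pow, ← zpow_natCast, ← zpow_mul,
      mul_comm x, zpow_mul, zpow_natCast, hθ, hm, norm_zpow, ← zpow_natCast, ← zpow_mul,
      ← zpow_mul, ← zpow_add₀ hk.pos.ne']
    rw [show m * x + y * (ℓ : ℤ) = 1 by linarith, zpow_one]
  obtain ⟨c, hc⟩ := (norm_unit hℓ hk _ hz).2 u hu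
  have hu0 : u ≠ 0 := by
    rintro rfl
    rw [map_zero] at hu
    exact zero_ne_one hu
  exact (cl_eq_zero (Algebra.norm_ne_zero_iff.2 hu0)).2 ⟨c, hc⟩

end Pool.Agent.Helper54.PT
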