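import Pool.Agent.Helper65.TG.L5a
import Pool.Agent.Helper96.TG.L5b
import Pool.Agent.Helper96.TG.L5c
import Pool.Agent.Helper11.TG.S34
import Pool.Agent.Helper50.TG.S01
import Pool.Agent.Helper23.TG.S2
import Pool.Agent.Helper23.TG.S5
import Pool.Agent.Helper26.TG.N1
import Pool.Agent.Helper26.TG.N2
import Pool.Agent.Helper7.TG.N3
import Pool.Agent.Helper73.TG.E2
import Pool.Agent.Helper86.TG.E3

/-!
# Twists of superelliptic curves with arbitrary bad reduction: the local statements put together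
-/

set_option autoImplicit false

namespace Pool.Agent.Helper54.PT

open Polynomial Finset Filter Topology Module Pool.Agent.Helper43.TW Pool.Agent.Helper47.BSD

section Local

universe u

variable {k : Type u} [NontriviallyNormedField k] [IsUltrametricDist k] [CompleteSpace k]
  {ℓ : ℕ} {π : k} {ι : Type} [Fintype ι] [DecidableEq ι] {a : ι → ℕ} {E : ι → k}
  {w w' : ι → Cl ℓ k}

/-- L5: isotropy -/
theorem ptData_iso (hℓ : ℓ.Prime) (hk : LF ℓ π) (hc : cl ℓ (-1 : k) = 0)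
    (hE : ∀ i j, i ≠ j → E i ≠ E j) (hw : PtData hk a E w) (hw' : PtData hk a E w') :
    ∑ i, (a i : ZMod ℓ) • tm hk (w i) (w' i) = 0 := by
  obtain ⟨i₁, ρ, n, h1⟩ := hw
  obtain ⟨i₁', ρ', n', h2⟩ := hw'
  have hsw : ∑ i, (a i : ZMod ℓ) • tm hk (w i) (w' i) =
      -∑ i, (a i : ZMod ℓ) • tm hk (w' i) (w i) := by
    rw [← sum_neg_distrib]
    exact sum_congr rfl fun i _ => by rw [tm_swap, smul_neg]
  rcases lt_trichotomy ρ ρ' with h | h | h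
  · rcases le_or_gt ‖E i₁ - E i₁'‖ ρ' with h' | h'
    · exact ptAt_nest hℓ hk hc hE h1 h2 h' h
    · exact ptAt_disj hℓ hk hc hE h1 h2 (h.trans h') h'
  · subst h
    rcases le_or_gt ‖E i₁ - E i₁'‖ ρ with h' | h'
    · exact ptAt_eq hℓ hk hc hE h1 h2 h'
    · exact ptAt_disj hℓ hk hc hE h1 h2 h' h'
  · rcases le_or_gt ‖E i₁ - E i₁'‖ ρ with h' | h'
    · rw [hsw, ptAt_nest hℓ hk hc hE h2 h1 (by rwa [norm_sub_rev]) h, neg_zero]
    · exact ptAt_disj hℓ hk hc hE h1 h2 h' (h.trans h')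

end Local

section LocS

variable {k : Type} [NontriviallyNormedField k] [IsUltrametricDist k] [CompleteSpace k]
  {ℓ : ℕ} [Fact ℓ.Prime] {π : k} {ι : Type} [Fintype ι] [DecidableEq ι] {a : ι → ℕ}
  {K : Type} [Field K] {φ : K →+* k} {f : Cl ℓ k →+ ZMod ℓ × ZMod ℓ} {e : ι → K}

/-- S1: isotropy of the local sets -/
theorem locS_iso' (hk : LF ℓ π) (hc : cl ℓ (-1 : k) = 0) (ha : ∀ i, ¬ ℓ ∣ a i) (hf : FC hk f)
    (he : ∀ i j, i ≠ j → e i ≠ e j) (i₀ : ι) (c : ZMod ℓ) :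
    ∀ w ∈ LocS hk φ f a e i₀ c, ∀ w' ∈ LocS hk φ f a e i₀ c, bG a i₀ w w' = 0 :=
  locS_iso hk hc ha hf he i₀ c (fun hE hw hw' => ptData_iso Fact.out hk hc hE hw hw')
    (fun hu hE hw => ptData_scale Fact.out hk hu hE hw) (fun h hu i => exG_mkG h hu i)

end LocS

section LocSTwo

variable {k : Type} [NontriviallyNormedField k] [IsUltrametricDist k] [CompleteSpace k]
  {π : k} {ι : Type} [Fintype ι] [DecidableEq ι] {a : ι → ℕ}
  {K : Type} [Field K] {φ : K →+* k} {f : Cl 2 k →+ ZMod 2 × ZMod 2} {e : ι → K}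

/-- N3: the two Lagrangians at a node -/
theorem exists_M_node' (hk : LF 2 π) (ha : ∀ i, ¬ 2 ∣ a i) (hs : ¬ 2 ∣ ∑ i, a i)
    (hc : cl 2 (-1 : k) = 0) (hf : FC hk f) (hfo : ∀ x, (f x).1 = nu hk x)
    (he : ∀ i j, i ≠ j → e i ≠ e j) (i₀ : ι) {i₁ i₂ : ι} (hne : i₁ ≠ i₂)
    (h1 : ∀ i j, i ≠ j → s(i, j) ≠ s(i₁, i₂) → ‖φ (e i - e j)‖ = 1)
    (h2 : ‖φ (e i₁ - e i₂)‖ < 1)
    (hcl : ∀ c : ZMod 2, ∃ D : K, D ≠ 0 ∧ f (cl 2 (φ D)) = (0, c)) :
    ∃ M : ZMod 2 → Submodule (ZMod 2) (LSG 2 i₀), (∀ c,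
      finrank (ZMod 2) (M c) = Fintype.card {j : ι // j ≠ i₀} ∧
      (∀ w ∈ M c, ∀ w' ∈ M c, bG a i₀ w w' = 0) ∧
      (∀ w ∈ M c, qG a i₀ (fun i => ∑ m ∈ univ.erase i, f (cl 2 (φ (e i - e m)))) w = 0) ∧
      LocS hk φ f a e i₀ c ⊆ M c) ∧
      finrank (ZMod 2) (M 0 ⊓ M 1 : Submodule (ZMod 2) (LSG 2 i₀)) + 1 =
        Fintype.card {j : ι // j ≠ i₀} := by
  have hE : ∀ D : K, D ≠ 0 → ∀ i j, i ≠ j → φ (D * e i) ≠ φ (D * e j) := fun D hD i j hij h =>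
    he i j hij (mul_left_cancel₀ hD (φ.injective h))
  exact exists_M_node hk ha hs hc hf hfo he i₀ hne h1 h2 hcl
    (fun E w s h1 h2 h3 hw i hi₁ hi₂ => ptData_node hk ha hs hne h1 h2 h3 hw hi₁ hi₂)
    (fun D hD c hDc hsp => node_split hk ha hs hc hf hfo hne h1 h2 (he _ _ hne) hD hDc hsp)
    (fun D hD => ptData_tt Nat.prime_two hk ha (hE D hD) i₁)
    (fun c => locS_iso' hk hc ha hf he i₀ c) (fun c => locS_quad hk hc ha hs hf he i₀ c)
    (g_inv hk hc hf he) (fun g hg hg2 => exists_N0 ha hs g hg hg2)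
    (fun g N hN hNq W hW hWq => exists_lagQ ha hs g N hN hNq W hW hWq)

end LocSTwo

end Pool.Agent.Helper54.PT
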